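import Pool.Agent.R441.Q4.R

/-!
Lucas sequences `U_n(b,-1)`, `V_n(b,-1)` for `8 ∣ b` at the index `(p-1)/4`.
-/

set_option autoImplicit false
set_option linter.unusedSimpArgs false
set_option linter.unusedVariables false

namespace Pool.Agent.Results.MP_953685_nt.LucasQuarterEight

open Pool.Agent.R441.Q4

lemma zpow_par {F : Type} [Field F] {k r : ℤ} (h : (k - r) % 2 = 0) : ((-1 : F)) ^ k = (-1) ^ r := by
  rw [zsign, zsign]
  exact if_congr (by omega) rfl rfl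

/-- For a prime `p ≡ 1 (mod 4)`, `8 ∣ b`, `p = c² + d² = x² + (1+b²/4)y²`, `p ≠ b²/4 + 1`,
`c ≡ 1 (mod 4)` and the odd parts of `d`, `x`, `y` congruent to `1` modulo `4`. -/
theorem result (p : ℕ) [Fact p.Prime] (hp4 : p % 4 = 1) (b c d x y : ℤ) (hb : 8 ∣ b)
    (hpb : b ^ 2 / 4 + 1 ≠ (p : ℤ))
    (hcd : c ^ 2 + d ^ 2 = (p : ℤ)) (hxy : x ^ 2 + (1 + b ^ 2 / 4) * y ^ 2 = (p : ℤ))
    (hc : c % 4 = 1) (hd : OddPart1 d) (hx : OddPart1 x) (hy : OddPart1 y) :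
    (c : ZMod p) ≠ 0 ∧ (x : ZMod p) ≠ 0 ∧
    (4 ∣ x * y → ((LU b ((p - 1) / 4) : ℤ) : ZMod p) = 0) ∧
    (¬ 4 ∣ x * y → ((LU b ((p - 1) / 4) : ℤ) : ZMod p) =
      -(-1) ^ ((b / 8 - 1) * y) * (d * y / (c * x))) ∧
    (4 ∣ x * y → 4 ∣ d ∧ ((LV b ((p - 1) / 4) : ℤ) : ZMod p) =
      2 * (-1) ^ (d / 4 + x * y / 4 + b / 8 * y)) ∧
    (¬ 4 ∣ x * y → ((LV b ((p - 1) / 4) : ℤ) : ZMod p) = 0) := by
  have hpp : p.Prime := Fact.out
  have h2 : p ≠ 2 := by omega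
  obtain ⟨b8, hb8⟩ := hb
  obtain ⟨a1, ha1⟩ : ∃ a1, a1 = 2 * b8 := ⟨_, rfl⟩
  have ho : a1 % 2 = 0 := by omega
  have hba : b = 4 * a1 := by omega
  have hb8' : b / 8 = b8 := by omega
  have hb4 : 1 + b ^ 2 / 4 = (2 * a1) ^ 2 + 1 ^ 2 := by
    have : b ^ 2 = 4 * (4 * a1 ^ 2) := by rw [hba]; ring
    rw [this, Int.mul_ediv_cancel_left _ (by norm_num)]
    ring
  rw [hb4] at hxy
  rw [add_comm, hb4] at hpb
  rw [hb8']
  have hc2 : c % 2 = 1 := by omega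
  have hq : (p - 1) / 4 = p / 4 := by omega
  rw [hq]
  have hcs := sq8_odd hc2
  have hd2 : d % 2 = 0 := by
    by_contra hne
    have := sq8_odd (z := d) (by omega)
    omega
  have hDpos : 0 < (2 * a1) ^ 2 + 1 ^ 2 := by positivity
  have hx0 := x_ne_zero hxy hDpos hpb
  have h20 := two_ne h2
  have hsg := quarter_sign (F := ZMod p) hcd hc2 hd2
  have hrel : c ^ 2 + d ^ 2 = x ^ 2 + ((2 * a1) ^ 2 + 1 ^ 2) * y ^ 2 := by rw [hcd, hxy]
  have hpar := ev_y2_of_odd hc2 hd2 hrel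
  obtain ⟨q1, q2, q3, q4⟩ := ev_d hc2 hd2 (D_even ho) hrel
  have A0 : ∀ {l : ZMod 4}, _ → _ := fun {l} hl => lucas_main h2 (a := 2 * a1) (h := 1) (b := b)
    (Or.inl rfl) (by rw [hba]; ring) hcd hxy hx0 (l := l) hc2 hd2 hl
  -- the four cases
  have px2 : x % 4 = 2 → d % 8 = 2 ∧ y % 4 = 1 := fun h =>
    ⟨hd.two (d_of_five hd2 (q1 h (by omega))), hy.odd (by omega)⟩
  have px4 : x % 4 = 0 → d % 4 = 0 ∧ y % 4 = 1 := fun h =>
    ⟨d_of_one hd2 (q2 h (by omega)), hy.odd (by omega)⟩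
  have py2 : y % 4 = 2 → d % 8 = 2 ∧ x % 4 = 1 := fun h =>
    ⟨hd.two (d_of_five hd2 (q3 h (by omega))), hx.odd (by omega)⟩
  have py4 : y % 4 = 0 → d % 4 = 0 ∧ x % 4 = 1 := fun h =>
    ⟨d_of_one hd2 (q4 h (by omega)), hx.odd (by omega)⟩
  have A1 : x % 4 = 2 → (c : ZMod p) ≠ 0 ∧
      ((LV b (p / 4) : ℤ) : ZMod p) = 0 ∧
      ((LU b (p / 4) : ℤ) : ZMod p) = -(-1) ^ ((b8 - 1) * y) * (d * y / (c * x)) := by
    intro h
    obtain ⟨e1, e2⟩ := px2 h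
    have F := chi_ev_x2_even hpp h2 (a := 2 * a1) rfl ho hc e1 (hx.two h) e2 hcd hxy hpb
    have e3 : (a1 : ZMod 4) + 2 = 2 * ((b8 + 1 : ℤ) : ZMod 4) := by
      rw [ha1]
      push_cast
      ring
    rw [e3] at F
    obtain ⟨g1, g2, g3, g4⟩ := A0 F
    obtain ⟨g5, g6⟩ := cd_facts hcd g1
    obtain ⟨j, hj⟩ : ∃ j : ZMod p, j = (d : ZMod p) / c := ⟨_, rfl⟩
    have e4 : (d * y / (c * x) : ZMod p) = j * y / x := by
      rw [hj]; field_simp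
    have e5 : ((-1 : ZMod p)) ^ ((b8 - 1) * y) = (-1) ^ (b8 + 1) := by
      apply zpow_par
      obtain ⟨k, hk⟩ : ∃ k, y = 4 * k + 1 := ⟨y / 4, by omega⟩
      have : (b8 - 1) * y - (b8 + 1) = 2 * (2 * (b8 - 1) * k - 1) := by rw [hk]; ring
      omega
    rw [e4, e5]
    rw [← hj] at g2 g3 g4 g6
    rw [neg_two_mul, jp_two_mul g2, hsg, if_neg (by omega)] at g3 g4
    rw [g6] at g4
    refine ⟨g1, by rw [g3]; ring, ?_⟩
    rw [← mul_div_assoc, eq_div_iff hx0]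
    apply mul_left_cancel₀ h20
    push_cast at g4
    linear_combination g4
  have A2 : y % 4 = 2 → (c : ZMod p) ≠ 0 ∧
      ((LV b (p / 4) : ℤ) : ZMod p) = 0 ∧
      ((LU b (p / 4) : ℤ) : ZMod p) = -(-1) ^ ((b8 - 1) * y) * (d * y / (c * x)) := by
    intro h
    obtain ⟨e1, e2⟩ := py2 h
    have F := chi_ev_y2 hpp h2 (a := 2 * a1) rfl hc e1 e2 (hy.two h) hcd hxy hpb
    obtain ⟨g1, g2, g3, g4⟩ := A0 F
    obtain ⟨g5, g6⟩ := cd_facts hcd g1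
    obtain ⟨j, hj⟩ : ∃ j : ZMod p, j = (d : ZMod p) / c := ⟨_, rfl⟩
    have e3 : (d * y / (c * x) : ZMod p) = j * y / x := by
      rw [hj]; field_simp
    have e5 : ((-1 : ZMod p)) ^ ((b8 - 1) * y) = (-1) ^ a1 := by
      apply zpow_par
      obtain ⟨k, hk⟩ : ∃ k, y = 4 * k + 2 := ⟨y / 4, by omega⟩
      have : (b8 - 1) * y - a1 = 2 * (2 * (b8 - 1) * k + (b8 - 1) - b8) := by rw [hk, ha1]; ring
      omega
    rw [e3, e5]
    rw [← hj] at g2 g3 g4 g6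
    rw [neg_two_mul, jp_two_mul g2, hsg, if_neg (by omega)] at g3 g4
    rw [g6] at g4
    refine ⟨g1, by rw [g3]; ring, ?_⟩
    rw [← mul_div_assoc, eq_div_iff hx0]
    apply mul_left_cancel₀ h20
    push_cast at g4
    linear_combination g4
  have A3 : y % 4 = 0 → (c : ZMod p) ≠ 0 ∧
      ((LV b (p / 4) : ℤ) : ZMod p) = 2 * (-1) ^ (d / 4 + x * y / 4 + b8 * y) ∧
      ((LU b (p / 4) : ℤ) : ZMod p) = 0 := by
    intro h
    obtain ⟨e1, e2⟩ := py4 h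
    have F := chi_ev_y4 hpp h2 (a := 2 * a1) (by omega) hc e1 e2 h hcd hxy hpb
    have e3 : (d + y) % 8 = 0 ↔ (d / 4 + y / 4) % 2 = 0 := by omega
    rw [if_par e3] at F
    obtain ⟨g1, g2, g3, g4⟩ := A0 F
    have e5 : ((-1 : ZMod p)) ^ (d / 4 + x * y / 4 + b8 * y) = (-1) ^ (d / 4 + y / 4) := by
      apply zpow_par
      obtain ⟨k, hk⟩ : ∃ k, y = 4 * k := ⟨y / 4, by omega⟩
      obtain ⟨r, hr⟩ : ∃ r, x = 2 * r + 1 := ⟨x / 2, by omega⟩
      have i1 : x * y / 4 = x * k := by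
        rw [hk, show x * (4 * k) = 4 * (x * k) by ring, Int.mul_ediv_cancel_left _ (by norm_num)]
      have i2 : y / 4 = k := by omega
      have : d / 4 + x * y / 4 + b8 * y - (d / 4 + y / 4) = 2 * (r * k + 2 * b8 * k) := by
        rw [i1, i2, hk, hr]; ring
      omega
    rw [neg_two_mul, jp_two_mul g2, hsg, if_pos e1] at g3 g4
    refine ⟨g1, by rw [g3, e5]; ring, ?_⟩
    have e5 : (2 * x : ZMod p) ≠ 0 := mul_ne_zero h20 hx0
    apply mul_left_cancel₀ e5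
    rw [g4]
    ring
  have A4 : x % 4 = 0 → (c : ZMod p) ≠ 0 ∧
      ((LV b (p / 4) : ℤ) : ZMod p) = 2 * (-1) ^ (d / 4 + x * y / 4 + b8 * y) ∧
      ((LU b (p / 4) : ℤ) : ZMod p) = 0 := by
    intro h
    obtain ⟨e1, e2⟩ := px4 h
    have F := chi_ev_x4_even hpp h2 (a := 2 * a1) rfl ho hc e1 h e2 hcd hxy hpb
    have e3 : (a1 : ZMod 4) + 2 * ((d / 4 : ℤ) : ZMod 4) + 2 * ((x / 4 : ℤ) : ZMod 4) =
        2 * ((b8 + d / 4 + x / 4 : ℤ) : ZMod 4) := by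
      rw [ha1]
      push_cast
      ring
    rw [e3] at F
    obtain ⟨g1, g2, g3, g4⟩ := A0 F
    have e5 : ((-1 : ZMod p)) ^ (d / 4 + x * y / 4 + b8 * y) = (-1) ^ (b8 + d / 4 + x / 4) := by
      apply zpow_par
      obtain ⟨k, hk⟩ : ∃ k, x = 4 * k := ⟨x / 4, by omega⟩
      obtain ⟨r, hr⟩ : ∃ r, y = 2 * r + 1 := ⟨y / 2, by omega⟩
      have i1 : x * y / 4 = k * y := by
        rw [hk, show 4 * k * y = 4 * (k * y) by ring, Int.mul_ediv_cancel_left _ (by norm_num)]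
      have i2 : x / 4 = k := by omega
      have : d / 4 + x * y / 4 + b8 * y - (b8 + d / 4 + x / 4) = 2 * (k * r + b8 * r) := by
        rw [i1, i2, hr]; ring
      omega
    rw [neg_two_mul, jp_two_mul g2, hsg, if_pos e1] at g3 g4
    refine ⟨g1, by rw [g3, e5]; ring, ?_⟩
    have e5 : (2 * x : ZMod p) ≠ 0 := mul_ne_zero h20 hx0
    apply mul_left_cancel₀ e5
    rw [g4]
    ring
  have hcases : x % 4 = 2 ∨ x % 4 = 0 ∨ y % 4 = 2 ∨ y % 4 = 0 := by omega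
  have hc0 : (c : ZMod p) ≠ 0 := by
    rcases hcases with h | h | h | h
    · exact (A1 h).1
    · exact (A4 h).1
    · exact (A2 h).1
    · exact (A3 h).1
  have hdiv : 4 ∣ x * y ↔ (x % 4 = 0 ∨ y % 4 = 0) := by
    constructor
    · intro h
      by_contra hne
      rcases (show x % 4 = 2 ∨ y % 4 = 2 by omega) with h' | h'
      · obtain ⟨k, hk⟩ : ∃ k, x = 4 * k + 2 := ⟨x / 4, by omega⟩
        obtain ⟨r, hr⟩ : ∃ r, y = 2 * r + 1 := ⟨y / 2, by omega⟩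
        have : x * y = 4 * (2 * k * r + k + r) + 2 := by rw [hk, hr]; ring
        omega
      · obtain ⟨k, hk⟩ : ∃ k, y = 4 * k + 2 := ⟨y / 4, by omega⟩
        obtain ⟨r, hr⟩ : ∃ r, x = 2 * r + 1 := ⟨x / 2, by omega⟩
        have : x * y = 4 * (2 * k * r + k + r) + 2 := by rw [hk, hr]; ring
        omega
    · rintro (h | h)
      · exact (Int.dvd_of_emod_eq_zero h).mul_right _
      · exact (Int.dvd_of_emod_eq_zero h).mul_left _
  refine ⟨hc0, hx0, ?_, ?_, ?_, ?_⟩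
  · intro h
    rcases hdiv.1 h with h' | h'
    · exact (A4 h').2.2
    · exact (A3 h').2.2
  · intro h
    rw [hdiv] at h
    rcases (show x % 4 = 2 ∨ y % 4 = 2 by omega) with h' | h'
    · exact (A1 h').2.2
    · exact (A2 h').2.2
  · intro h
    rcases hdiv.1 h with h' | h'
    · exact ⟨Int.dvd_of_emod_eq_zero (px4 h').1, (A4 h').2.1⟩
    · exact ⟨Int.dvd_of_emod_eq_zero (py4 h').1, (A3 h').2.1⟩
  · intro h
    rw [hdiv] at h
    rcases (show x % 4 = 2 ∨ y % 4 = 2 by omega) with h' | h'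
    · exact (A1 h').2.1
    · exact (A2 h').2.1

end Pool.Agent.Results.MP_953685_nt.LucasQuarterEight
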